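import Pool.Agent.U84.AWQ.Stm
import Pool.Agent.R456.CL.Add

/-!
# Project AWQ, package GC: generalized comparability of arbitrary projections
-/

set_option autoImplicit false

namespace Pool.Agent.U329.AWQ

open Pool.Agent.R456.CL Pool.Agent.U84.AWQ Pool.Agent.R456.CL.Add

universe u

section

variable {A : Type u} [CStarAlgebra A]

lemma cp_one_sub {z : A} (h : CP z) : CP (1 - z) := by
  refine ⟨h.1.one_sub, fun x => ?_⟩
  rw [sub_mul, mul_sub, h.2 x, one_mul, mul_one]

lemma pj_mul {z e : A} (hz : CP z) (he : PJ e) : PJ (z * e) := by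
  have hi : e * e = e := he.isIdempotentElem
  have hs : star e = e := he.isSelfAdjoint
  have hzi : z * z = z := hz.1.isIdempotentElem
  have hzs : star z = z := hz.1.isSelfAdjoint
  refine ⟨?_, ?_⟩
  · change z * e * (z * e) = z * e
    calc z * e * (z * e) = z * (e * z) * e := by noncomm_ring
      _ = z * (z * e) * e := by rw [hz.2 e]
      _ = (z * z) * (e * e) := by noncomm_ring
      _ = z * e := by rw [hzi, hi]
  · change star (z * e) = z * e
    rw [star_mul, hs, hzs, hz.2 e]

lemma conj_central {z v e : A} (hz : CP z) : z * (v * e * star v) = v * (z * e) * star v := by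
  calc z * (v * e * star v) = (z * v) * e * star v := by noncomm_ring
    _ = (v * z) * e * star v := by rw [hz.2 v]
    _ = v * (z * e) * star v := by noncomm_ring

end

theorem t_GC : S_GC.{u} := by
  intro A _ ⟨v₁, v₂, h1, h2, h12⟩ hCO e f he hf
  have h0 : v₁ * e * star v₁ * (v₂ * f * star v₂) = 0 := by
    calc v₁ * e * star v₁ * (v₂ * f * star v₂)
        = v₁ * e * (star v₁ * v₂) * f * star v₂ := by noncomm_ring
      _ = 0 := by rw [h12]; simp
  obtain ⟨z, hz, hs1, hs2⟩ := hCO _ _ (pj_conj h1 he) (pj_conj h2 hf) h0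
  have hz' := cp_one_sub hz
  refine ⟨z, hz, ?_, ?_⟩
  · rw [conj_central hz, conj_central hz] at hs1
    exact sub_back h1 h2 (pj_mul hz he) (pj_mul hz hf) hs1
  · rw [conj_central hz', conj_central hz'] at hs2
    exact sub_back h2 h1 (pj_mul hz' hf) (pj_mul hz' he) hs2

end Pool.Agent.U329.AWQ
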